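import Mathlib

/-!
Entropy of finitely valued random variables: the equality cases.
-/

set_option autoImplicit false

namespace Pool.Agent.U301.CF

open Finset Real

section
variable {Ω : Type} [Fintype Ω] {α β : Type} [DecidableEq α] [DecidableEq β]

/-- the probability of `Y = y` for the probability mass function `p` on the finite set `Ω` -/
def pr (p : Ω → ℝ) (Y : Ω → α) (y : α) : ℝ := ∑ ω with Y ω = y, p ω

/-- the Shannon entropy of `Y` (natural logarithms) -/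
noncomputable def H (p : Ω → ℝ) (Y : Ω → α) : ℝ := ∑ y ∈ univ.image Y, negMulLog (pr p Y y)

variable {p : Ω → ℝ} (hp : ∀ ω, 0 ≤ p ω)

theorem H_eq (p : Ω → ℝ) (Y : Ω → α) : H p Y = ∑ ω, p ω * (-log (pr p Y (Y ω))) := by
  unfold H
  rw [← Finset.sum_fiberwise_of_maps_to (s := univ) (t := univ.image Y) (g := Y)
    (fun ω _ => mem_image_of_mem _ (mem_univ ω))]
  refine Finset.sum_congr rfl fun y _ => ?_
  rw [Finset.sum_congr rfl (g := fun ω => p ω * (-log (pr p Y y)))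
    (fun ω hω => by rw [(mem_filter.1 hω).2]), ← Finset.sum_mul]
  unfold negMulLog pr
  ring

theorem pr_congr (p : Ω → ℝ) (Y : Ω → α) (Z : Ω → β) (h : ∀ ω ω', Y ω' = Y ω ↔ Z ω' = Z ω) (ω : Ω) :
    pr p Y (Y ω) = pr p Z (Z ω) := by
  unfold pr
  refine Finset.sum_congr ?_ fun _ _ => rfl
  ext ω'
  simp [h ω ω']

theorem H_congr (p : Ω → ℝ) (Y : Ω → α) (Z : Ω → β) (h : ∀ ω ω', Y ω' = Y ω ↔ Z ω' = Z ω) :
    H p Y = H p Z := by
  rw [H_eq, H_eq]
  exact Finset.sum_congr rfl fun ω _ => by rw [pr_congr p Y Z h]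

include hp

theorem pr_nonneg (Y : Ω → α) (y : α) : 0 ≤ pr p Y y := Finset.sum_nonneg fun ω _ => hp ω

theorem le_pr (Y : Ω → α) (ω : Ω) : p ω ≤ pr p Y (Y ω) :=
  Finset.single_le_sum (f := p) (fun ω _ => hp ω) (by simp)

theorem pr_pair_le (Y : Ω → α) (Z : Ω → β) (y : α) (z : β) :
    pr p (fun ω => (Y ω, Z ω)) (y, z) ≤ pr p Y y := by
  unfold pr
  refine Finset.sum_le_sum_of_subset_of_nonneg ?_ fun ω _ _ => hp ω
  intro ω hω
  simp only [mem_filter, mem_univ, true_and, Prod.mk.injEq] at hω ⊢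
  exact hω.1

/-- `H(Y, Z) = H(Y)`: the marginal probabilities agree -/
theorem pr_eq_of_H (Y : Ω → α) (Z : Ω → β) (h : H p (fun ω => (Y ω, Z ω)) = H p Y) {ω : Ω}
    (hω : 0 < p ω) : pr p (fun ω => (Y ω, Z ω)) (Y ω, Z ω) = pr p Y (Y ω) := by
  have h1 : ∑ ω, p ω * (log (pr p Y (Y ω)) - log (pr p (fun ω => (Y ω, Z ω)) (Y ω, Z ω))) = 0 := by
    rw [H_eq, H_eq] at h
    have : ∑ ω, p ω * (log (pr p Y (Y ω)) - log (pr p (fun ω => (Y ω, Z ω)) (Y ω, Z ω))) =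
        ∑ ω, p ω * (-log (pr p (fun ω => (Y ω, Z ω)) (Y ω, Z ω))) -
        ∑ ω, p ω * (-log (pr p Y (Y ω))) := by
      rw [← Finset.sum_sub_distrib]
      exact Finset.sum_congr rfl fun ω _ => by ring
    rw [this, h, sub_self]
  have h2 : ∀ ω ∈ (univ : Finset Ω),
      0 ≤ p ω * (log (pr p Y (Y ω)) - log (pr p (fun ω => (Y ω, Z ω)) (Y ω, Z ω))) := by
    intro ω _
    rcases (hp ω).eq_or_lt with h0 | h0
    · rw [← h0, zero_mul]
    · refine mul_nonneg h0.le (sub_nonneg.2 (log_le_log ?_ (pr_pair_le hp Y Z _ _)))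
      exact lt_of_lt_of_le h0 (le_pr hp (fun ω => (Y ω, Z ω)) ω)
  have h3 := (Finset.sum_eq_zero_iff_of_nonneg h2).1 h1 ω (mem_univ ω)
  have h4 : log (pr p Y (Y ω)) = log (pr p (fun ω => (Y ω, Z ω)) (Y ω, Z ω)) := by
    rcases mul_eq_zero.1 h3 with h5 | h5
    · exact absurd h5 hω.ne'
    · linarith
  exact (log_injOn_pos (Set.mem_Ioi.2 (lt_of_lt_of_le hω (le_pr hp Y ω)))
    (Set.mem_Ioi.2 (lt_of_lt_of_le hω (le_pr hp (fun ω => (Y ω, Z ω)) ω))) h4).symm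

/-- `H(Y, Z) = H(Y)`: `Z` is a function of `Y` on the support -/
theorem det_of_H (Y : Ω → α) (Z : Ω → β) (h : H p (fun ω => (Y ω, Z ω)) = H p Y) {ω ω' : Ω}
    (hω : 0 < p ω) (hω' : 0 < p ω') (hY : Y ω = Y ω') : Z ω = Z ω' := by
  classical
  by_contra hZ
  have h1 := pr_eq_of_H hp Y Z h hω
  have h2 : pr p (fun ω => (Y ω, Z ω)) (Y ω, Z ω) + p ω' ≤ pr p Y (Y ω) := by
    unfold pr
    rw [← Finset.sum_erase_add (univ.filter fun ω'' => Y ω'' = Y ω) p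
      (a := ω') (by simp [hY])]
    refine add_le_add (Finset.sum_le_sum_of_subset_of_nonneg ?_ fun ω _ _ => hp ω) le_rfl
    intro ω'' h3
    simp only [mem_filter, mem_univ, true_and, Prod.mk.injEq, mem_erase] at h3 ⊢
    refine ⟨?_, h3.1⟩
    rintro rfl
    exact hZ h3.2.symm
  linarith

/-- `H(Y, Z) = H(Y) + H(Z)`: independence -/
theorem indep_of_H (hp1 : ∑ ω, p ω = 1) (Y : Ω → α) (Z : Ω → β)
    (h : H p (fun ω => (Y ω, Z ω)) = H p Y + H p Z) {ω ω' : Ω}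
    (hω : 0 < p ω) (hω' : 0 < p ω') : ∃ ω'', 0 < p ω'' ∧ Y ω'' = Y ω ∧ Z ω'' = Z ω' ∧
      pr p (fun ω => (Y ω, Z ω)) (Y ω'', Z ω'') = pr p Y (Y ω'') * pr p Z (Z ω'') := by
  set q : Ω → ℝ := fun ω => pr p (fun ω => (Y ω, Z ω)) (Y ω, Z ω) with hq
  set t : Ω → ℝ := fun ω => pr p Y (Y ω) * pr p Z (Z ω) / q ω with ht
  have hq0 : ∀ ω, 0 < p ω → 0 < q ω := fun ω h0 =>
    lt_of_lt_of_le h0 (le_pr hp (fun ω => (Y ω, Z ω)) ω)
  have hY0 : ∀ ω, 0 < p ω → 0 < pr p Y (Y ω) := fun ω h0 => lt_of_lt_of_le h0 (le_pr hp Y ω)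
  have hZ0 : ∀ ω, 0 < p ω → 0 < pr p Z (Z ω) := fun ω h0 => lt_of_lt_of_le h0 (le_pr hp Z ω)
  -- the sum of `p t`
  let P : Finset (α × β) := (univ.image Y) ×ˢ (univ.image Z)
  let S : Finset (α × β) := P.filter fun x => 0 < pr p (fun ω => (Y ω, Z ω)) x
  have hPsum : ∑ x ∈ P, pr p Y x.1 * pr p Z x.2 = 1 := by
    rw [Finset.sum_product]
    simp only
    rw [Finset.sum_congr rfl (fun y _ => (Finset.mul_sum _ _ _).symm), ← Finset.sum_mul]
    have e1 : ∑ y ∈ univ.image Y, pr p Y y = 1 := by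
      unfold pr
      rw [Finset.sum_fiberwise_of_maps_to (fun ω _ => mem_image_of_mem _ (mem_univ ω)), hp1]
    have e2 : ∑ y ∈ univ.image Z, pr p Z y = 1 := by
      unfold pr
      rw [Finset.sum_fiberwise_of_maps_to (fun ω _ => mem_image_of_mem _ (mem_univ ω)), hp1]
    rw [e1, e2, one_mul]
  have hSsum : ∑ ω, p ω * t ω = ∑ x ∈ S, pr p Y x.1 * pr p Z x.2 := by
    rw [← Finset.sum_fiberwise_of_maps_to (s := univ) (t := P) (g := fun ω => (Y ω, Z ω))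
      (fun ω _ => mem_product.2 ⟨mem_image_of_mem _ (mem_univ ω), mem_image_of_mem _ (mem_univ ω)⟩),
      Finset.sum_filter]
    refine Finset.sum_congr rfl fun x _ => ?_
    have e1 : ∑ ω with (Y ω, Z ω) = x, p ω * t ω =
        pr p (fun ω => (Y ω, Z ω)) x *
          (pr p Y x.1 * pr p Z x.2 / pr p (fun ω => (Y ω, Z ω)) x) := by
      conv_rhs => rw [pr, Finset.sum_mul]
      refine Finset.sum_congr rfl fun ω hω => ?_
      have := (mem_filter.1 hω).2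
      rw [← this]
      rfl
    rw [e1]
    split_ifs with h0
    · field_simp
    · have : pr p (fun ω => (Y ω, Z ω)) x = 0 := le_antisymm (not_lt.1 h0) (pr_nonneg hp _ _)
      rw [this, zero_mul]
  have hSP : ∑ x ∈ S, pr p Y x.1 * pr p Z x.2 ≤ 1 := by
    rw [← hPsum]
    exact Finset.sum_le_sum_of_subset_of_nonneg (filter_subset _ _) fun x _ _ =>
      mul_nonneg (pr_nonneg hp _ _) (pr_nonneg hp _ _)
  have hlog : ∑ ω, p ω * (-log (t ω)) = 0 := by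
    have e : ∑ ω, p ω * (-log (t ω)) = ∑ ω, p ω * (-log (pr p Y (Y ω))) +
        ∑ ω, p ω * (-log (pr p Z (Z ω))) - ∑ ω, p ω * (-log (q ω)) := by
      rw [← Finset.sum_add_distrib, ← Finset.sum_sub_distrib]
      refine Finset.sum_congr rfl fun ω _ => ?_
      rcases (hp ω).eq_or_lt with h0 | h0
      · rw [← h0]; ring
      · simp only [ht]
        rw [log_div (mul_pos (hY0 ω h0) (hZ0 ω h0)).ne' (hq0 ω h0).ne',
          log_mul (hY0 ω h0).ne' (hZ0 ω h0).ne']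
        ring
    rw [H_eq, H_eq, H_eq] at h
    rw [e]
    simp only [hq]
    linarith
  have hterm : ∀ ω ∈ (univ : Finset Ω), 0 ≤ p ω * (-log (t ω) - 1 + t ω) := by
    intro ω _
    rcases (hp ω).eq_or_lt with h0 | h0
    · rw [← h0, zero_mul]
    · have htp : 0 < t ω := div_pos (mul_pos (hY0 ω h0) (hZ0 ω h0)) (hq0 ω h0)
      have := log_le_sub_one_of_pos htp
      exact mul_nonneg h0.le (by linarith)
  have hsum : ∑ ω, p ω * (-log (t ω) - 1 + t ω) =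
      ∑ x ∈ S, pr p Y x.1 * pr p Z x.2 - 1 := by
    have e : ∑ ω, p ω * (-log (t ω) - 1 + t ω) = ∑ ω, p ω * (-log (t ω)) - ∑ ω, p ω +
        ∑ ω, p ω * t ω := by
      rw [← Finset.sum_sub_distrib, ← Finset.sum_add_distrib]
      exact Finset.sum_congr rfl fun ω _ => by ring
    rw [e, hlog, hp1, hSsum]
    ring
  have hS1 : ∑ x ∈ S, pr p Y x.1 * pr p Z x.2 = 1 :=
    le_antisymm hSP (by linarith [Finset.sum_nonneg hterm])
  have hzero : ∀ ω, 0 < p ω → t ω = 1 := by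
    intro ω h0
    have h1 := (Finset.sum_eq_zero_iff_of_nonneg hterm).1 (by rw [hsum, hS1, sub_self]) ω
      (mem_univ ω)
    have htp : 0 < t ω := div_pos (mul_pos (hY0 ω h0) (hZ0 ω h0)) (hq0 ω h0)
    by_contra hne
    have := log_lt_sub_one_of_pos htp hne
    rcases mul_eq_zero.1 h1 with h2 | h2
    · exact h0.ne' h2
    · linarith
  -- the pair `(Y ω, Z ω')` lies in `S`
  have hmem : (Y ω, Z ω') ∈ S := by
    by_contra hn
    have hPin : (Y ω, Z ω') ∈ P :=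
      mem_product.2 ⟨mem_image_of_mem _ (mem_univ ω), mem_image_of_mem _ (mem_univ ω')⟩
    have h1 : ∑ x ∈ S, pr p Y x.1 * pr p Z x.2 < ∑ x ∈ P, pr p Y x.1 * pr p Z x.2 :=
      Finset.sum_lt_sum_of_subset (filter_subset _ _) hPin hn
        (mul_pos (hY0 ω hω) (hZ0 ω' hω')) fun x _ _ =>
          mul_nonneg (pr_nonneg hp _ _) (pr_nonneg hp _ _)
    rw [hPsum, hS1] at h1
    exact lt_irrefl _ h1
  have h5 : 0 < pr p (fun ω => (Y ω, Z ω)) (Y ω, Z ω') := (mem_filter.1 hmem).2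
  obtain ⟨ω'', h6, h7⟩ := Finset.exists_lt_of_sum_lt (s := univ.filter fun ω'' =>
    (Y ω'', Z ω'') = (Y ω, Z ω')) (f := fun _ => (0 : ℝ)) (g := p)
    (by rw [Finset.sum_const_zero]; exact h5)
  have h8 := (mem_filter.1 h6).2
  rw [Prod.mk.injEq] at h8
  refine ⟨ω'', h7, h8.1, h8.2, ?_⟩
  have h9 := hzero ω'' h7
  simp only [ht] at h9
  rw [div_eq_one_iff_eq (hq0 ω'' h7).ne'] at h9
  exact h9.symm

end

end Pool.Agent.U301.CF
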