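import Pool.Agent.U301.CF.Ent

/-!
Matroids (rank functions on `Fin n`), minors, the class `M'`, the matroid `F₇⁻`.
-/

set_option autoImplicit false

namespace Pool.Agent.U301.CF

open Finset

/-- A matroid on the ground set `Fin n`, given by its rank function. -/
structure Mtd (n : ℕ) where
  /-- the rank function -/
  r : Finset (Fin n) → ℕ
  r_le : ∀ X, r X ≤ #X
  r_mono : ∀ X Y, X ⊆ Y → r X ≤ r Y
  r_sub : ∀ X Y, r (X ∪ Y) + r (X ∩ Y) ≤ r X + r Y

/-- `N` is isomorphic to a minor of `M`: for an embedding `φ` of the ground sets and a set `C` of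
contracted elements outside of the image, `r_N(X) = r_M(φ(X) ∪ C) - r_M(C)`; the elements which are
neither in the image nor in `C` are deleted. -/
def IsMinor {m n : ℕ} (N : Mtd m) (M : Mtd n) : Prop :=
  ∃ (φ : Fin m ↪ Fin n) (C : Finset (Fin n)), (∀ i, φ i ∉ C) ∧
    ∀ X, N.r X + M.r C = M.r (X.map φ ∪ C)

/-- `N` is isomorphic to the matroid on `Fin k` with the rank function `f`. -/
def Iso {m k : ℕ} (N : Mtd m) (f : Finset (Fin k) → ℕ) : Prop :=
  ∃ e : Fin m ≃ Fin k, ∀ X, N.r X = f (X.map e.toEmbedding)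

/-- The p-characteristic set: the integers `v ≥ 2` such that `log v` times the rank function is the
entropy function of a random vector `X` with finitely many values (a random vector on the finite
probability space `Ω` with the probabilities `p ω`). -/
def pchar {n : ℕ} (M : Mtd n) : Set ℕ :=
  {v | 2 ≤ v ∧ ∃ (Ω : Type) (_ : Fintype Ω) (p : Ω → ℝ) (X : Fin n → Ω → ℕ),
    (∀ ω, 0 ≤ p ω) ∧ ∑ ω, p ω = 1 ∧
      ∀ A : Finset (Fin n), H p (fun ω (i : A) => X i ω) = Real.log v * M.r A}

/-- `M` is representable over the field `F`. -/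
def RepOver (F : Type) [Field F] {n : ℕ} (M : Mtd n) : Prop :=
  ∃ w : Fin n → Fin n → F, ∀ A : Finset (Fin n),
    M.r A = Module.finrank F (Submodule.span F (w '' (A : Set (Fin n))))

/-- `M` is regular: representable over every field. -/
def Regular {n : ℕ} (M : Mtd n) : Prop := ∀ (F : Type) [Field F], RepOver F M

/-- The class `M'`: the regular matroids and the matroids with p-characteristic set
`{v ≥ 3, v ≠ 6}`. -/
def InM' {n : ℕ} (M : Mtd n) : Prop := Regular M ∨ pchar M = {v | 3 ≤ v ∧ v ≠ 6}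

/-- `M` is an excluded minor of `M'`. -/
def ExcludedMinor {n : ℕ} (M : Mtd n) : Prop :=
  ¬ InM' M ∧ ∀ (m : ℕ) (N : Mtd m), m < n → IsMinor N M → InM' N

/-- the rank function of `U_{k, n}` -/
def uni (k n : ℕ) (X : Finset (Fin n)) : ℕ := min #X k

/-- the rank function of the rank `3` matroid on `n` points whose lines with at least three points
are the triples in `L` -/
def rk3 {n : ℕ} (L : Finset (Finset (Fin n))) (X : Finset (Fin n)) : ℕ :=
  if #X ≤ 2 then #X else if X ∈ L then 2 else 3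

/-- six of the seven lines of the Fano plane -/
def L6 : Finset (Finset (Fin 7)) :=
  {{0, 1, 3}, {1, 2, 4}, {0, 2, 5}, {0, 4, 6}, {1, 5, 6}, {2, 3, 6}}

/-- the seven lines of the Fano plane -/
def L7 : Finset (Finset (Fin 7)) := insert {3, 4, 5} L6

/-- the rank function of the Fano matroid `F₇` -/
def f7 : Finset (Fin 7) → ℕ := rk3 L7

/-- the rank function of the dual `F₇*` of the Fano matroid -/
def f7dual (X : Finset (Fin 7)) : ℕ := #X + f7 Xᶜ - 3

theorem rk3_le {n : ℕ} (L : Finset (Finset (Fin n))) (X : Finset (Fin n)) : rk3 L X ≤ #X := by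
  unfold rk3
  split_ifs <;> omega

theorem rk3_le3 {n : ℕ} (L : Finset (Finset (Fin n))) (X : Finset (Fin n)) : rk3 L X ≤ 3 := by
  unfold rk3
  split_ifs <;> omega

theorem rk3_small {n : ℕ} (L : Finset (Finset (Fin n))) {X : Finset (Fin n)} (h : #X ≤ 2) :
    rk3 L X = #X := if_pos h

theorem rk3_ge {n : ℕ} (L : Finset (Finset (Fin n))) {X : Finset (Fin n)} (h : 2 ≤ #X) :
    2 ≤ rk3 L X := by
  unfold rk3
  split_ifs <;> omega

theorem rk3_mono {n : ℕ} (L : Finset (Finset (Fin n))) (hL : ∀ X ∈ L, #X = 3)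
    (X Y : Finset (Fin n)) (h : X ⊆ Y) : rk3 L X ≤ rk3 L Y := by
  have hc := card_le_card h
  by_cases h1 : #Y ≤ 2
  · rw [rk3_small L h1, rk3_small L (hc.trans h1)]
    exact hc
  by_cases h2 : Y ∈ L
  · have h3 := hL Y h2
    have hY : rk3 L Y = 2 := by unfold rk3; rw [if_neg h1, if_pos h2]
    rw [hY]
    by_cases h4 : #X ≤ 2
    · rw [rk3_small L h4]; exact h4
    · have : X = Y := eq_of_subset_of_card_le h (by omega)
      rw [this, hY]
  · have hY : rk3 L Y = 3 := by unfold rk3; rw [if_neg h1, if_neg h2]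
    rw [hY]
    exact rk3_le3 L X

theorem rk3_sub {n : ℕ} (L : Finset (Finset (Fin n))) (hL : ∀ X ∈ L, #X = 3)
    (hL2 : ∀ X ∈ L, ∀ Y ∈ L, 2 ≤ #(X ∩ Y) → X = Y) (X Y : Finset (Fin n)) :
    rk3 L (X ∪ Y) + rk3 L (X ∩ Y) ≤ rk3 L X + rk3 L Y := by
  have key : ∀ X Y : Finset (Fin n), #X ≤ 1 →
      rk3 L (X ∪ Y) + rk3 L (X ∩ Y) ≤ rk3 L X + rk3 L Y := by
    intro X Y hX
    by_cases hXY : X ⊆ Y
    · rw [union_eq_right.2 hXY, inter_eq_left.2 hXY, add_comm]
    · have h1 : X ∩ Y = ∅ := by
        rcases Finset.eq_empty_or_nonempty (X ∩ Y) with h | ⟨a, ha⟩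
        · exact h
        · exfalso
          apply hXY
          intro b hb
          have := card_le_one.1 hX a (mem_inter.1 ha).1 b hb
          rw [← this]
          exact (mem_inter.1 ha).2
      have hX0 : #X = 1 := by
        rcases Nat.lt_or_ge #X 1 with h | h
        · exfalso
          apply hXY
          rw [card_eq_zero.1 (by omega : #X = 0)]
          exact empty_subset _
        · omega
      rw [h1, rk3_small L (X := ∅) (by simp), rk3_small L (X := X) (by omega), card_empty, hX0]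
      have hu := card_union_le X Y
      by_cases h2 : #Y ≤ 2
      · rw [rk3_small L h2]
        have := rk3_le L (X ∪ Y)
        omega
      · have h3 := rk3_ge L (X := Y) (by omega)
        have := rk3_le3 L (X ∪ Y)
        omega
  by_cases hX : #X ≤ 1
  · exact key X Y hX
  by_cases hY : #Y ≤ 1
  · rw [union_comm, inter_comm, add_comm (rk3 L X)]
    exact key Y X hY
  have hX2 := rk3_ge L (X := X) (by omega)
  have hY2 := rk3_ge L (X := Y) (by omega)
  have hU := rk3_le3 L (X ∪ Y)
  have hI := rk3_mono L hL (X ∩ Y) X inter_subset_left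
  have hI' := rk3_mono L hL (X ∩ Y) Y inter_subset_right
  by_cases h3 : 3 ≤ rk3 L X
  · omega
  by_cases h4 : 3 ≤ rk3 L Y
  · omega
  by_cases h5 : #(X ∩ Y) ≤ 1
  · rw [rk3_small L (by omega : #(X ∩ Y) ≤ 2)]
    omega
  have line : ∀ Z : Finset (Fin n), ¬ #Z ≤ 1 → ¬ 3 ≤ rk3 L Z → #Z = 2 ∨ Z ∈ L := by
    intro Z h6 h7
    by_contra h8
    push Not at h8
    apply h7
    unfold rk3
    rw [if_neg (by omega), if_neg h8.2]
  rcases line X hX h3 with h6 | h6
  · have : X ∩ Y = X := eq_of_subset_of_card_le inter_subset_left (by omega)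
    rw [this, union_eq_right.2 (inter_eq_left.1 this), add_comm]
  rcases line Y hY h4 with h7 | h7
  · have : X ∩ Y = Y := eq_of_subset_of_card_le inter_subset_right (by omega)
    rw [this, union_eq_left.2 (inter_eq_right.1 this)]
  · have := hL2 X h6 Y h7 (by omega)
    rw [this, union_self, inter_self]

theorem L6_card : ∀ X ∈ L6, #X = 3 := by
  intro X hX
  simp only [L6, mem_insert, mem_singleton] at hX
  rcases hX with rfl | rfl | rfl | rfl | rfl | rfl <;> rfl

set_option maxRecDepth 100000 in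
theorem L6_inter : ∀ X ∈ L6, ∀ Y ∈ L6, 2 ≤ #(X ∩ Y) → X = Y := by
  intro X hX Y hY
  simp only [L6, mem_insert, mem_singleton] at hX hY
  rcases hX with rfl | rfl | rfl | rfl | rfl | rfl <;>
    rcases hY with rfl | rfl | rfl | rfl | rfl | rfl <;> decide

/-- The non-Fano matroid `F₇⁻`. -/
def F7minus : Mtd 7 where
  r := rk3 L6
  r_le := rk3_le L6
  r_mono := rk3_mono L6 L6_card
  r_sub := rk3_sub L6 L6_card L6_inter

/-- a minor of a minor is a minor -/
theorem IsMinor.trans {l m n : ℕ} {N' : Mtd l} {N : Mtd m} {M : Mtd n} (h' : IsMinor N' N)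
    (h : IsMinor N M) : IsMinor N' M := by
  obtain ⟨φ', C', h1, h2⟩ := h'
  obtain ⟨φ, C, h3, h4⟩ := h
  refine ⟨φ'.trans φ, C'.map φ ∪ C, ?_, ?_⟩
  · intro i hi
    rcases mem_union.1 hi with h5 | h5
    · obtain ⟨j, hj, hj'⟩ := mem_map.1 h5
      have := φ.injective hj'
      subst this
      exact h1 i hj
    · exact h3 _ h5
  · intro X
    have e1 := h4 C'
    have e2 := h4 (X.map φ' ∪ C')
    have e3 := h2 X
    have e4 : X.map (φ'.trans φ) ∪ (C'.map φ ∪ C) = (X.map φ' ∪ C').map φ ∪ C := by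
      rw [map_union, map_map, union_assoc]
    rw [e4, ← e2, ← e3, ← e1]
    ring

theorem IsMinor.refl {n : ℕ} (M : Mtd n) : IsMinor M M :=
  ⟨Function.Embedding.refl _, ∅, by simp, fun X => by
    have : M.r ∅ = 0 := Nat.le_zero.1 (by simpa using M.r_le ∅)
    simp [this]⟩

end Pool.Agent.U301.CF
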