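import Pool.Agent.U301.CF.Odd

/-!
Minors of the non-Fano matroid; the non-Fano matroid is not binary; minimal minors outside of `M'`.
-/

set_option autoImplicit false
set_option maxRecDepth 100000

namespace Pool.Agent.U301.CF

open Finset

theorem span_insert_of_mem {F : Type} [Field F] {n : ℕ} (w : Fin n → Fin n → F)
    (A : Finset (Fin n)) (k : Fin n) (h : w k ∈ Submodule.span F (w '' (A : Set (Fin n)))) :
    Submodule.span F (w '' ((insert k A : Finset (Fin n)) : Set (Fin n))) =
      Submodule.span F (w '' (A : Set (Fin n))) := by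
  rw [Finset.coe_insert, Set.image_insert_eq]
  exact Submodule.span_insert_eq_span h

theorem not_binary : ¬ RepOver (ZMod 2) F7minus := by
  rintro ⟨w, hw⟩
  have hw' : ∀ A : Finset (Fin 7), rk3 L6 A =
      Module.finrank (ZMod 2) (Submodule.span (ZMod 2) (w '' (A : Set (Fin 7)))) := hw
  have ins : ∀ (A : Finset (Fin 7)) (k : Fin 7),
      w k ∈ Submodule.span (ZMod 2) (w '' (A : Set (Fin 7))) →
      rk3 L6 (insert k A) = rk3 L6 A := by
    intro A k h
    rw [hw', hw', span_insert_of_mem w A k h]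
  have mem : ∀ (A : Finset (Fin 7)) (k : Fin 7), rk3 L6 (insert k A) = rk3 L6 A →
      w k ∈ Submodule.span (ZMod 2) (w '' (A : Set (Fin 7))) := by
    intro A k h
    rw [hw', hw'] at h
    have hle : Submodule.span (ZMod 2) (w '' (A : Set (Fin 7))) ≤
        Submodule.span (ZMod 2) (w '' ((insert k A : Finset (Fin 7)) : Set (Fin 7))) :=
      Submodule.span_mono (Set.image_mono (by simp))
    rw [Submodule.eq_of_le_of_finrank_eq hle h.symm]
    exact Submodule.subset_span ⟨k, by simp, rfl⟩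
  have line : ∀ i j k : Fin 7, rk3 L6 (insert k {i, j}) = 2 → rk3 L6 {i, j} = 2 →
      rk3 L6 (insert k {i}) = 2 → rk3 L6 (insert k {j}) = 2 → w k = w i + w j := by
    intro i j k h1 h2 h3 h4
    have h5 := mem {i, j} k (by rw [h1, h2])
    rw [show (w '' (({i, j} : Finset (Fin 7)) : Set (Fin 7))) = {w i, w j} by
      simp [Set.image_pair]] at h5
    obtain ⟨a, b, hab⟩ := Submodule.mem_span_pair.1 h5
    have s1 : ∀ l, rk3 L6 ({l} : Finset (Fin 7)) = 1 := fun l => by
      rw [rk3_small L6 (X := {l}) (by simp)]; simp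
    have hz : ∀ c : ZMod 2, c = 0 ∨ c = 1 := by decide
    have ha := hz a
    have hb := hz b
    rcases ha with rfl | rfl
    · exfalso
      have : w k ∈ Submodule.span (ZMod 2) (w '' (({j} : Finset (Fin 7)) : Set (Fin 7))) := by
        rw [← hab, zero_smul, zero_add]
        exact Submodule.smul_mem _ _ (Submodule.subset_span ⟨j, by simp, rfl⟩)
      have := ins {j} k this
      rw [h4, s1] at this
      omega
    · rcases hb with rfl | rfl
      · exfalso
        have : w k ∈ Submodule.span (ZMod 2) (w '' (({i} : Finset (Fin 7)) : Set (Fin 7))) := by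
          rw [← hab, zero_smul, add_zero]
          exact Submodule.smul_mem _ _ (Submodule.subset_span ⟨i, by simp, rfl⟩)
        have := ins {i} k this
        rw [h3, s1] at this
        omega
      · rw [← hab, one_smul, one_smul]
  have e3 := line 0 1 3 (by decide) (by decide) (by decide) (by decide)
  have e4 := line 1 2 4 (by decide) (by decide) (by decide) (by decide)
  have e5 := line 0 2 5 (by decide) (by decide) (by decide) (by decide)
  have h2 : w 1 + w 1 = 0 := by
    funext l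
    exact CharTwo.add_self_eq_zero (w 1 l)
  have e : w 5 = w 3 + w 4 := by
    rw [e3, e4, e5]
    calc w 0 + w 2 = w 0 + 0 + w 2 := by rw [add_zero]
      _ = w 0 + (w 1 + w 1) + w 2 := by rw [h2]
      _ = _ := by abel
  have h6 : w 5 ∈ Submodule.span (ZMod 2) (w '' (({3, 4} : Finset (Fin 7)) : Set (Fin 7))) := by
    rw [e]
    exact Submodule.add_mem _ (Submodule.subset_span ⟨3, by simp, rfl⟩)
      (Submodule.subset_span ⟨4, by simp, rfl⟩)
  have h7 := ins {3, 4} 5 h6
  revert h7
  decide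

theorem four_not_mem : ¬ InM' F7minus := by
  rintro (h | h)
  · exact not_binary (h (ZMod 2))
  · have : (4 : ℕ) ∈ pchar F7minus := by rw [h]; exact ⟨by norm_num, by norm_num⟩
    exact absurd (odd_of_mem this) (by decide)

/-- a minor of `M` isomorphic to the matroid with rank function `f` -/
theorem comb {m n k : ℕ} {N : Mtd m} {M : Mtd n} {f : Finset (Fin k) → ℕ} (h : IsMinor N M)
    (h' : Iso N f) : ∃ (ψ : Fin k ↪ Fin n) (C : Finset (Fin n)), (∀ i, ψ i ∉ C) ∧
      ∀ X, f X + M.r C = M.r (X.map ψ ∪ C) := by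
  obtain ⟨φ, C, h1, h2⟩ := h
  obtain ⟨e, he⟩ := h'
  refine ⟨e.symm.toEmbedding.trans φ, C, fun i => h1 _, fun X => ?_⟩
  have h3 := h2 (X.map e.symm.toEmbedding)
  rw [he, map_map, map_map] at h3
  rw [← h3]
  congr 2
  ext a
  simp

theorem exists_map {k n : ℕ} (ψ : Fin k ↪ Fin n) (S : Finset (Fin n)) (h : S ⊆ univ.map ψ) :
    ∃ X : Finset (Fin k), X.map ψ = S := by
  refine ⟨univ.filter fun i => ψ i ∈ S, ?_⟩
  ext a
  simp only [mem_map, mem_filter, mem_univ, true_and]
  constructor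
  · rintro ⟨i, hi, rfl⟩
    exact hi
  · intro ha
    obtain ⟨i, -, rfl⟩ := mem_map.1 (h ha)
    exact ⟨i, ha, rfl⟩

theorem compl_pair (ψ : Fin 5 ↪ Fin 7) : ∃ x y, x ≠ y ∧ (univ.map ψ)ᶜ = {x, y} := by
  rw [← card_eq_two, card_compl, card_map]
  rfl

theorem factA : ∀ x y : Fin 7, x ≠ y → ∃ l ∈ L6, x ∈ l ∧ y ∉ l := by decide

theorem factB : ∀ x y : Fin 7, ∃ l ∈ L6, x ∉ l ∧ y ∉ l := by decide

theorem rk3_line {l : Finset (Fin 7)} (h : l ∈ L6) : rk3 L6 l = 2 := by
  unfold rk3
  rw [L6_card l h, if_neg (by norm_num), if_pos h]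

theorem rk3_empty : rk3 L6 ∅ = 0 := rk3_small L6 (X := ∅) (by simp)

theorem no_u35 {m : ℕ} {N : Mtd m} (h : IsMinor N F7minus) : ¬ Iso N (uni 3 5) := by
  intro h'
  obtain ⟨ψ, C, -, h2⟩ := comb h h'
  have h2' : ∀ X : Finset (Fin 5), min #X 3 + rk3 L6 C = rk3 L6 (X.map ψ ∪ C) := h2
  have hC : C = ∅ := by
    have h3 := h2' univ
    have h4 := rk3_le3 L6 (univ.map ψ ∪ C)
    rw [card_univ, Fintype.card_fin] at h3
    by_contra hne
    obtain ⟨c, hc⟩ := nonempty_iff_ne_empty.2 hne
    have h5 := rk3_mono L6 L6_card {c} C (by simpa using hc)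
    rw [rk3_small L6 (X := {c}) (by simp), card_singleton] at h5
    omega
  subst hC
  obtain ⟨x, y, -, hY⟩ := compl_pair ψ
  obtain ⟨l, hl, hx, hy⟩ := factB x y
  obtain ⟨X, hX⟩ := exists_map ψ l (by
    intro a ha
    by_contra hn
    have : a ∈ (univ.map ψ)ᶜ := mem_compl.2 hn
    rw [hY, mem_insert, mem_singleton] at this
    rcases this with rfl | rfl
    · exact hx ha
    · exact hy ha)
  have h3 := h2' X
  have h4 : #X = 3 := by rw [← L6_card l hl, ← hX, card_map]
  rw [hX, union_empty, rk3_line hl, h4, rk3_empty] at h3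
  omega

theorem no_u25 {m : ℕ} {N : Mtd m} (h : IsMinor N F7minus) : ¬ Iso N (uni 2 5) := by
  intro h'
  obtain ⟨ψ, C, h1, h2⟩ := comb h h'
  have h2' : ∀ X : Finset (Fin 5), min #X 2 + rk3 L6 C = rk3 L6 (X.map ψ ∪ C) := h2
  have hC : #C = 1 := by
    have h3 := h2' univ
    have h4 := rk3_mono L6 L6_card (univ.map ψ) (univ.map ψ ∪ C) subset_union_left
    have h5 : rk3 L6 (univ.map ψ) = 3 := by
      have h6 : #(univ.map ψ) = 5 := by rw [card_map]; rfl
      unfold rk3
      rw [h6, if_neg (by norm_num), if_neg]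
      intro h7
      have := L6_card _ h7
      omega
    have h6 := rk3_le3 L6 (univ.map ψ ∪ C)
    rw [card_univ, Fintype.card_fin] at h3
    have h7 : rk3 L6 C = 1 := by omega
    rcases Nat.lt_or_ge #C 2 with h8 | h8
    · rw [rk3_small L6 (X := C) (by omega)] at h7
      exact h7
    · have := rk3_ge L6 h8
      omega
  obtain ⟨c, rfl⟩ := card_eq_one.1 hC
  obtain ⟨x, y, hxy, hY⟩ := compl_pair ψ
  have hc : c ∈ (univ.map ψ)ᶜ := by
    rw [mem_compl, mem_map]
    rintro ⟨i, -, hi⟩
    exact h1 i (by simp [hi])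
  have key : ∃ l ∈ L6, c ∈ l ∧ ∀ a ∈ l, a ≠ c → a ∈ univ.map ψ := by
    have hc' := hc
    rw [hY, mem_insert, mem_singleton] at hc'
    rcases hc' with rfl | rfl
    · obtain ⟨l, hl, hx, hy⟩ := factA c y hxy
      refine ⟨l, hl, hx, fun a ha hac => ?_⟩
      by_contra hn
      have : a ∈ (univ.map ψ)ᶜ := mem_compl.2 hn
      rw [hY, mem_insert, mem_singleton] at this
      rcases this with rfl | rfl
      · exact hac rfl
      · exact hy ha
    · obtain ⟨l, hl, hx, hy⟩ := factA c x hxy.symm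
      refine ⟨l, hl, hx, fun a ha hac => ?_⟩
      by_contra hn
      have : a ∈ (univ.map ψ)ᶜ := mem_compl.2 hn
      rw [hY, mem_insert, mem_singleton] at this
      rcases this with rfl | rfl
      · exact hy ha
      · exact hac rfl
  obtain ⟨l, hl, hcl, hl2⟩ := key
  obtain ⟨X, hX⟩ := exists_map ψ (l.erase c) (fun a ha =>
    hl2 a (mem_of_mem_erase ha) (ne_of_mem_erase ha))
  have h3 := h2' X
  have h4 : #X = 2 := by
    have : #(X.map ψ) = 2 := by rw [hX, card_erase_of_mem hcl, L6_card l hl]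
    rwa [card_map] at this
  have h5 : X.map ψ ∪ {c} = l := by
    rw [hX, union_comm, ← insert_eq, insert_erase hcl]
  rw [h5, h4, rk3_line hl, rk3_small L6 (X := {c}) (by simp), card_singleton] at h3
  omega

theorem no_f7dual {m : ℕ} {N : Mtd m} (h : IsMinor N F7minus) : ¬ Iso N f7dual := by
  intro h'
  obtain ⟨ψ, C, -, h2⟩ := comb h h'
  have h3 : f7dual univ + rk3 L6 C = rk3 L6 (univ.map ψ ∪ C) := h2 univ
  have h4 := rk3_le3 L6 (univ.map ψ ∪ C)
  have h5 : f7dual univ = 4 := by
    unfold f7dual f7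
    rw [compl_univ, rk3_small L7 (X := ∅) (by simp)]
    rfl
  omega

theorem no_f7 {m : ℕ} {N : Mtd m} (h : IsMinor N F7minus) : ¬ Iso N f7 := by
  intro h'
  obtain ⟨ψ, C, h1, h2⟩ := comb h h'
  have hbij : Function.Surjective ψ := Finite.injective_iff_surjective.1 ψ.injective
  have hC : C = ∅ := by
    by_contra hne
    obtain ⟨c, hc⟩ := nonempty_iff_ne_empty.2 hne
    obtain ⟨i, rfl⟩ := hbij c
    exact h1 i hc
  subst hC
  have h2' : ∀ X, rk3 L7 X + rk3 L6 ∅ = rk3 L6 (X.map ψ ∪ ∅) := h2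
  have hsub : L7.image (fun l => l.map ψ) ⊆ L6 := by
    intro l' hl'
    obtain ⟨l, hl, rfl⟩ := mem_image.1 hl'
    have h3 := h2' l
    have hc : #l = 3 := by
      rcases mem_insert.1 hl with rfl | hl
      · rfl
      · exact L6_card l hl
    have h4 : rk3 L7 l = 2 := by
      unfold rk3
      rw [hc, if_neg (by norm_num), if_pos hl]
    rw [h4, rk3_empty, union_empty] at h3
    by_contra hn
    have h5 : rk3 L6 (l.map ψ) = 3 := by
      unfold rk3
      rw [card_map, hc, if_neg (by norm_num), if_neg hn]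
    omega
  have h3 := card_le_card hsub
  rw [card_image_of_injective _ (Finset.map_injective ψ)] at h3
  revert h3
  decide

/-- a matroid outside of `M'` has a minor which is an excluded minor of `M'` -/
theorem exists_excluded {n : ℕ} (M : Mtd n) (h : ¬ InM' M) :
    ∃ (m : ℕ) (N : Mtd m), IsMinor N M ∧ ExcludedMinor N := by
  classical
  have hex : ∃ m : ℕ, ∃ N : Mtd m, IsMinor N M ∧ ¬ InM' N := ⟨n, M, IsMinor.refl M, h⟩
  obtain ⟨N, hN, hN'⟩ := Nat.find_spec hex
  refine ⟨Nat.find hex, N, hN, hN', fun m N' hm hN2 => ?_⟩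
  by_contra h3
  exact Nat.find_min hex hm ⟨N', hN2.trans hN, h3⟩

end Pool.Agent.U301.CF
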