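import Pool.Agent.U301.CF.Mat

/-!
The p-characteristic set of the non-Fano matroid contains only odd numbers.
-/

set_option autoImplicit false
set_option maxRecDepth 100000

namespace Pool.Agent.U301.CF

open Finset

theorem involution {G : Type} [Fintype G] (γ : G → G → G → G) (o : G)
    (h1 : ∀ x, γ x o o = x) (h2 : ∀ y, γ o y o = y) (h3 : ∀ z, γ o o z = z)
    (hD : ∀ x y x' y' z, γ x y o = γ x' y' o → γ x y z = γ x' y' z)
    (hE : ∀ x y z y' z', γ o y z = γ o y' z' → γ x y z = γ x y' z')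
    (hinj : ∀ x x' y, γ x y o = γ x' y o → x = x')
    (hev : 2 ∣ Fintype.card G) : ∃ t, t ≠ o ∧ γ t t o = o ∧ γ o t t = o ∧ γ t o t = o := by
  have e1 : ∀ x z, γ x o z = γ o x z := fun x z => hD x o o x z (by rw [h1, h2])
  have e2 : ∀ x z, γ x o z = γ x z o := fun x z => hE x o z z o (by rw [h3, h2])
  let : Mul G := ⟨fun x y => γ x y o⟩
  let : One G := ⟨o⟩
  have hsurj : ∀ y, ∃ x, γ x y o = o := by
    intro y
    exact (Finite.injective_iff_surjective.1 (fun x x' h => hinj x x' y h :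
      Function.Injective fun x => γ x y o)) o
  choose iv hiv using hsurj
  let : Inv G := ⟨iv⟩
  let : Group G := Group.ofLeftAxioms
    (fun x y z => by
      change γ (γ x y o) z o = γ x (γ y z o) o
      rw [← e2 (γ x y o) z, hD (γ x y o) o x y z (h1 _)]
      refine (hE x (γ y z o) o y z ?_).symm
      rw [h2, ← e2, e1])
    (fun y => h2 y) (fun y => hiv y)
  have : Fact (Nat.Prime 2) := ⟨Nat.prime_two⟩
  obtain ⟨t, ht⟩ := exists_prime_orderOf_dvd_card 2 hev
  have ht1 : t ≠ o := by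
    intro h
    have : t = 1 := h
    rw [this, orderOf_one] at ht
    omega
  have ht2 : γ t t o = o := by
    have := pow_orderOf_eq_one t
    rw [ht, sq] at this
    exact this
  exact ⟨t, ht1, ht2, by rw [← e1, e2, ht2], by rw [e2, ht2]⟩

section
variable {Ω : Type} [Fintype Ω] {p : Ω → ℝ} {X : Fin 7 → Ω → ℕ} {v : ℕ}

structure Data (p : Ω → ℝ) (X : Fin 7 → Ω → ℕ) (v : ℕ) : Prop where
  hp : ∀ ω, 0 ≤ p ω
  hp1 : ∑ ω, p ω = 1
  hH : ∀ A : Finset (Fin 7), H p (fun ω (i : A) => X i ω) = Real.log v * rk3 L6 A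

theorem Hset (d : Data p X v) {α : Type} [DecidableEq α] (Y : Ω → α) (A : Finset (Fin 7))
    (h : ∀ ω ω', Y ω' = Y ω ↔ ∀ i ∈ A, X i ω' = X i ω) :
    H p Y = Real.log v * rk3 L6 A := by
  rw [← d.hH A]
  apply H_congr
  intro ω ω'
  rw [h]
  constructor
  · intro h
    funext i
    exact h i i.2
  · intro h i hi
    exact congrFun h ⟨i, hi⟩

theorem det (d : Data p X v) (A B : Finset (Fin 7)) (hAB : A ⊆ B) (hr : rk3 L6 B = rk3 L6 A)
    {ω ω' : Ω} (h0 : 0 < p ω) (h0' : 0 < p ω') (h : ∀ i ∈ A, X i ω = X i ω') :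
    ∀ i ∈ B, X i ω = X i ω' := by
  have := det_of_H d.hp (fun ω (i : A) => X i ω) (fun ω (i : B) => X i ω) (by
    rw [Hset d _ B, Hset d _ A, hr]
    · intro ω ω'
      constructor
      · intro h i hi
        exact congrFun h ⟨i, hi⟩
      · intro h
        funext i
        exact h i i.2
    · intro ω ω'
      constructor
      · intro h i hi
        exact congrFun (congrArg Prod.snd h) ⟨i, hi⟩
      · intro h
        refine Prod.ext (funext fun i => h i (hAB i.2)) (funext fun i => h i i.2)) h0 h0'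
    (funext fun i => h i i.2)
  exact fun i hi => congrFun this ⟨i, hi⟩

theorem ind (d : Data p X v) (A B : Finset (Fin 7))
    (hr : rk3 L6 (A ∪ B) = rk3 L6 A + rk3 L6 B) {ω ω' : Ω} (h0 : 0 < p ω) (h0' : 0 < p ω') :
    ∃ ω'', 0 < p ω'' ∧ (∀ i ∈ A, X i ω'' = X i ω) ∧ (∀ i ∈ B, X i ω'' = X i ω') := by
  obtain ⟨ω'', h1, h2, h3, -⟩ := indep_of_H d.hp d.hp1 (fun ω (i : A) => X i ω)
    (fun ω (i : B) => X i ω) (by
    rw [Hset d _ (A ∪ B), Hset d _ A, Hset d _ B, hr]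
    · push_cast
      ring
    · intro ω ω'
      constructor
      · intro h i hi
        exact congrFun h ⟨i, hi⟩
      · intro h
        funext i
        exact h i i.2
    · intro ω ω'
      constructor
      · intro h i hi
        exact congrFun h ⟨i, hi⟩
      · intro h
        funext i
        exact h i i.2
    · intro ω ω'
      constructor
      · intro h i hi
        rcases mem_union.1 hi with hi | hi
        · exact congrFun (congrArg Prod.fst h) ⟨i, hi⟩
        · exact congrFun (congrArg Prod.snd h) ⟨i, hi⟩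
      · intro h
        refine Prod.ext (funext fun i => h i (mem_union_left _ i.2))
          (funext fun i => h i (mem_union_right _ i.2))) h0 h0'
  exact ⟨ω'', h1, fun i hi => congrFun h2 ⟨i, hi⟩, fun i hi => congrFun h3 ⟨i, hi⟩⟩

/-- points with prescribed coordinates on a basis -/
theorem ex3 (d : Data p X v) (i j k : Fin 7) (h2 : rk3 L6 ({i} ∪ {j}) = 2)
    (h3 : rk3 L6 (({i} ∪ {j}) ∪ {k}) = 3) {ω ω' ω'' : Ω} (h0 : 0 < p ω) (h0' : 0 < p ω')
    (h0'' : 0 < p ω'') : ∃ τ, 0 < p τ ∧ X i τ = X i ω ∧ X j τ = X j ω' ∧ X k τ = X k ω'' := by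
  obtain ⟨σ, s1, s2, s3⟩ := ind d {i} {j} (by
    rw [h2, rk3_small L6 (X := {i}) (by simp), rk3_small L6 (X := {j}) (by simp)]; simp) h0 h0'
  obtain ⟨τ, t1, t2, t3⟩ := ind d ({i} ∪ {j}) {k} (by
    rw [h3, h2, rk3_small L6 (X := {k}) (by simp)]; simp) s1 h0''
  refine ⟨τ, t1, ?_, ?_, t3 k (by simp)⟩
  · rw [t2 i (by simp), s2 i (by simp)]
  · rw [t2 j (by simp), s3 j (by simp)]

/-- a basis determines everything -/
theorem det3 (d : Data p X v) (i j k : Fin 7) (h3 : rk3 L6 {i, j, k} = 3) {ω ω' : Ω}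
    (h0 : 0 < p ω) (h0' : 0 < p ω') (hi : X i ω = X i ω') (hj : X j ω = X j ω')
    (hk : X k ω = X k ω') (l : Fin 7) : X l ω = X l ω' := by
  refine det d {i, j, k} univ (subset_univ _) ?_ h0 h0' ?_ l (mem_univ l)
  · rw [h3]; rfl
  · intro m hm
    simp only [mem_insert, mem_singleton] at hm
    rcases hm with rfl | rfl | rfl
    · exact hi
    · exact hj
    · exact hk

/-- two points of a line determine the third one -/
theorem det2 (d : Data p X v) (i j k : Fin 7) (h2 : rk3 L6 {i, j} = 2)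
    (h3 : rk3 L6 {i, j, k} = 2) {ω ω' : Ω}
    (h0 : 0 < p ω) (h0' : 0 < p ω') (hi : X i ω = X i ω') (hj : X j ω = X j ω') :
    X k ω = X k ω' := by
  refine det d {i, j} {i, j, k} ?_ (by rw [h2, h3]) h0 h0' ?_ k (by simp)
  · intro m hm
    simp only [mem_insert, mem_singleton] at hm ⊢
    tauto
  · intro m hm
    simp only [mem_insert, mem_singleton] at hm
    rcases hm with rfl | rfl
    · exact hi
    · exact hj

theorem odd_of_card (d : Data p X v)
    (hcard : Nat.card {x : ℕ // ∃ ω, 0 < p ω ∧ X 6 ω = x} = v) (hv : v ≠ 0) : ¬ 2 ∣ v := by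
  intro hev
  obtain ⟨ω0, h0⟩ : ∃ ω, 0 < p ω := by
    by_contra h
    push Not at h
    have : ∑ ω, p ω = 0 := Finset.sum_eq_zero fun ω _ => le_antisymm (h ω) (d.hp ω)
    rw [d.hp1] at this
    exact one_ne_zero this
  set G := {x : ℕ // ∃ ω, 0 < p ω ∧ X 6 ω = x} with hG
  have : Finite G := Nat.finite_of_card_ne_zero (by rw [hcard]; exact hv)
  have : Fintype G := Fintype.ofFinite G
  rw [← hcard, Nat.card_eq_fintype_card] at hev
  have hA : ∀ x : G, ∃ ω, 0 < p ω ∧ X 6 ω = x ∧ X 1 ω = X 1 ω0 ∧ X 2 ω = X 2 ω0 := by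
    intro x
    obtain ⟨σ, s1, s2⟩ := x.2
    obtain ⟨τ, t1, t2, t3, t4⟩ := ex3 d 6 1 2 (by decide) (by decide) s1 h0 h0
    exact ⟨τ, t1, t2.trans s2, t3, t4⟩
  have hB : ∀ x : G, ∃ ω, 0 < p ω ∧ X 6 ω = x ∧ X 0 ω = X 0 ω0 ∧ X 2 ω = X 2 ω0 := by
    intro x
    obtain ⟨σ, s1, s2⟩ := x.2
    obtain ⟨τ, t1, t2, t3, t4⟩ := ex3 d 6 0 2 (by decide) (by decide) s1 h0 h0
    exact ⟨τ, t1, t2.trans s2, t3, t4⟩
  have hC : ∀ x : G, ∃ ω, 0 < p ω ∧ X 6 ω = x ∧ X 0 ω = X 0 ω0 ∧ X 1 ω = X 1 ω0 := by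
    intro x
    obtain ⟨σ, s1, s2⟩ := x.2
    obtain ⟨τ, t1, t2, t3, t4⟩ := ex3 d 6 0 1 (by decide) (by decide) s1 h0 h0
    exact ⟨τ, t1, t2.trans s2, t3, t4⟩
  choose α hα hα6 hα1 hα2 using hA
  choose β hβ hβ6 hβ0 hβ2 using hB
  choose ζ hζ hζ6 hζ0 hζ1 using hC
  have hP : ∀ x y z : G, ∃ ω, 0 < p ω ∧ X 0 ω = X 0 (α x) ∧ X 1 ω = X 1 (β y) ∧
      X 2 ω = X 2 (ζ z) := fun x y z => ex3 d 0 1 2 (by decide) (by decide) (hα x) (hβ y) (hζ z)
  choose P hP0 hPa hPb hPc using hP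
  let γ : G → G → G → G := fun x y z => ⟨X 6 (P x y z), P x y z, hP0 x y z, rfl⟩
  let o : G := ⟨X 6 ω0, ω0, h0, rfl⟩
  have hγ : ∀ x y z, ((γ x y z : G) : ℕ) = X 6 (P x y z) := fun _ _ _ => rfl
  have hαo : X 0 (α o) = X 0 ω0 :=
    det3 d 6 1 2 (by decide) (hα o) h0 (hα6 o) (hα1 o) (hα2 o) 0
  have hβo : X 1 (β o) = X 1 ω0 :=
    det3 d 6 0 2 (by decide) (hβ o) h0 (hβ6 o) (hβ0 o) (hβ2 o) 1
  have hζo : X 2 (ζ o) = X 2 ω0 :=
    det3 d 6 0 1 (by decide) (hζ o) h0 (hζ6 o) (hζ0 o) (hζ1 o) 2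
  have h1 : ∀ x, γ x o o = x := by
    intro x
    apply Subtype.ext
    rw [hγ, ← hα6 x]
    exact det3 d 0 1 2 (by decide) (hP0 x o o) (hα x) (hPa x o o)
      (by rw [hPb, hβo, hα1]) (by rw [hPc, hζo, hα2]) 6
  have h2 : ∀ y, γ o y o = y := by
    intro y
    apply Subtype.ext
    rw [hγ, ← hβ6 y]
    exact det3 d 0 1 2 (by decide) (hP0 o y o) (hβ y) (by rw [hPa, hαo, hβ0])
      (hPb o y o) (by rw [hPc, hζo, hβ2]) 6
  have h3 : ∀ z, γ o o z = z := by
    intro z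
    apply Subtype.ext
    rw [hγ, ← hζ6 z]
    exact det3 d 0 1 2 (by decide) (hP0 o o z) (hζ z) (by rw [hPa, hαo, hζ0])
      (by rw [hPb, hβo, hζ1]) (hPc o o z) 6
  -- the coordinates `3`, `4`, `5` of the points
  have c3 : ∀ x y z z', X 3 (P x y z) = X 3 (P x y z') := fun x y z z' =>
    det2 d 0 1 3 (by decide) (by decide) (hP0 x y z) (hP0 x y z') (by rw [hPa, hPa])
      (by rw [hPb, hPb])
  have c4 : ∀ x x' y z, X 4 (P x y z) = X 4 (P x' y z) := fun x x' y z =>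
    det2 d 1 2 4 (by decide) (by decide) (hP0 x y z) (hP0 x' y z) (by rw [hPb, hPb])
      (by rw [hPc, hPc])
  have c5 : ∀ x y y' z, X 5 (P x y z) = X 5 (P x y' z) := fun x y y' z =>
    det2 d 0 2 5 (by decide) (by decide) (hP0 x y z) (hP0 x y' z) (by rw [hPa, hPa])
      (by rw [hPc, hPc])
  have b3 : ∀ x y x' y' z, γ x y z = γ x' y' z → X 3 (P x y z) = X 3 (P x' y' z) := by
    intro x y x' y' z h
    exact det2 d 2 6 3 (by decide) (by decide) (hP0 x y z) (hP0 x' y' z) (by rw [hPc, hPc])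
      (congrArg Subtype.val h)
  have b4 : ∀ x y z y' z', γ x y z = γ x y' z' → X 4 (P x y z) = X 4 (P x y' z') := by
    intro x y z y' z' h
    exact det2 d 0 6 4 (by decide) (by decide) (hP0 x y z) (hP0 x y' z') (by rw [hPa, hPa])
      (congrArg Subtype.val h)
  have b5 : ∀ x y z x' z', γ x y z = γ x' y z' → X 5 (P x y z) = X 5 (P x' y z') := by
    intro x y z x' z' h
    exact det2 d 1 6 5 (by decide) (by decide) (hP0 x y z) (hP0 x' y z') (by rw [hPb, hPb])
      (congrArg Subtype.val h)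
  have hD : ∀ x y x' y' z, γ x y o = γ x' y' o → γ x y z = γ x' y' z := by
    intro x y x' y' z h
    apply Subtype.ext
    rw [hγ, hγ]
    refine det2 d 2 3 6 (by decide) (by decide) (hP0 x y z) (hP0 x' y' z) (by rw [hPc, hPc]) ?_
    rw [c3 x y z o, c3 x' y' z o]
    exact b3 x y x' y' o h
  have hE : ∀ x y z y' z', γ o y z = γ o y' z' → γ x y z = γ x y' z' := by
    intro x y z y' z' h
    apply Subtype.ext
    rw [hγ, hγ]
    refine det2 d 0 4 6 (by decide) (by decide) (hP0 x y z) (hP0 x y' z') (by rw [hPa, hPa]) ?_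
    rw [c4 x o y z, c4 x o y' z']
    exact b4 o y z y' z' h
  have hα' : ∀ x x', X 0 (α x) = X 0 (α x') → x = x' := by
    intro x x' h
    apply Subtype.ext
    rw [← hα6 x, ← hα6 x']
    exact det3 d 0 1 2 (by decide) (hα x) (hα x') h (by rw [hα1, hα1]) (by rw [hα2, hα2]) 6
  have hinj : ∀ x x' y, γ x y o = γ x' y o → x = x' := by
    intro x x' y h
    apply hα'
    rw [← hPa x y o, ← hPa x' y o]
    exact det3 d 6 1 2 (by decide) (hP0 x y o) (hP0 x' y o) (congrArg Subtype.val h)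
      (by rw [hPb, hPb]) (by rw [hPc, hPc]) 0
  obtain ⟨t, ht, e1, e2, e3⟩ := involution γ o h1 h2 h3 hD hE hinj hev
  have f3 : X 3 (P t t t) = X 3 (P o o o) := by
    rw [c3 t t t o]
    exact b3 t t o o o (by rw [e1, h1])
  have f4 : X 4 (P t t t) = X 4 (P o o o) := by
    rw [c4 t o t t]
    exact b4 o t t o o (by rw [e2, h1])
  have f5 : X 5 (P t t t) = X 5 (P o o o) := by
    rw [c5 t t o t]
    exact b5 t o t o o (by rw [e3, h1])
  apply ht
  apply hα'
  rw [← hPa t t t, ← hPa o o o]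
  exact det3 d 3 4 5 (by decide) (hP0 t t t) (hP0 o o o) f3 f4 f5 0

theorem pr_mul (d : Data p X v) (i j : Fin 7) (h : rk3 L6 ({i} ∪ {j}) = 2) {ω : Ω}
    (h0 : 0 < p ω) : pr p (fun ω => (X i ω, X j ω)) (X i ω, X j ω) =
      pr p (X i) (X i ω) * pr p (X j) (X j ω) := by
  obtain ⟨ω'', -, h2, h3, h4⟩ := indep_of_H d.hp d.hp1 (X i) (X j) (by
    rw [Hset d _ ({i} ∪ {j}), Hset d (X i) {i}, Hset d (X j) {j}, h,
      rk3_small L6 (X := {i}) (by simp), rk3_small L6 (X := {j}) (by simp)]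
    · simp
      ring
    · simp
    · simp
    · intro ω ω'
      simp) h0 h0
  rw [h2, h3] at h4
  exact h4

theorem pr_eq (d : Data p X v) (i j k : Fin 7) (hij : rk3 L6 ({i} ∪ {j}) = 2)
    (hik : rk3 L6 ({i} ∪ {k}) = 2) (h : rk3 L6 {i, j, k} = 2) {ω : Ω}
    (h0 : 0 < p ω) : pr p (X j) (X j ω) = pr p (X k) (X k ω) := by
  have e1 := pr_eq_of_H d.hp (fun ω => (X i ω, X j ω)) (X k) (by
    rw [Hset d _ {i, j, k}, Hset d _ ({i} ∪ {j}), h, hij]
    · intro ω ω'
      simp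
    · intro ω ω'
      simp [and_assoc]) h0
  have e2 := pr_eq_of_H d.hp (fun ω => (X i ω, X k ω)) (X j) (by
    rw [Hset d _ {i, j, k}, Hset d _ ({i} ∪ {k}), h, hik]
    · intro ω ω'
      simp
    · intro ω ω'
      simp [and_assoc, and_comm (a := X k ω' = X k ω)]) h0
  have e3 := pr_congr p (fun ω => ((X i ω, X j ω), X k ω)) (fun ω => ((X i ω, X k ω), X j ω))
    (fun ω ω' => by
      simp only [Prod.mk.injEq]
      tauto) ω
  have e4 := pr_mul d i j hij h0
  have e5 := pr_mul d i k hik h0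
  have hi : 0 < pr p (X i) (X i ω) := lt_of_lt_of_le h0 (le_pr d.hp (X i) ω)
  rw [e1, e2, e4, e5] at e3
  exact mul_left_cancel₀ hi.ne' e3

theorem card_vals (d : Data p X v) (hv : 2 ≤ v) :
    Nat.card {x : ℕ // ∃ ω, 0 < p ω ∧ X 6 ω = x} = v := by
  obtain ⟨ω0, h0⟩ : ∃ ω, 0 < p ω := by
    by_contra h
    push Not at h
    have : ∑ ω, p ω = 0 := Finset.sum_eq_zero fun ω _ => le_antisymm (h ω) (d.hp ω)
    rw [d.hp1] at this
    exact one_ne_zero this
  have hv0 : (0 : ℝ) < v := by exact_mod_cast (by omega : 0 < v)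
  have hcon : ∀ ω, 0 < p ω → pr p (X 6) (X 6 ω) = pr p (X 6) (X 6 ω0) := by
    intro ω hω
    obtain ⟨τ, t1, t2, t3⟩ := ind d {4} {6} (by decide) h0 hω
    rw [← t3 6 (by simp), ← pr_eq d 0 4 6 (by decide) (by decide) (by decide) t1,
      t2 4 (by simp), pr_eq d 0 4 6 (by decide) (by decide) (by decide) h0]
  set c := pr p (X 6) (X 6 ω0) with hc
  have hc0 : 0 < c := lt_of_lt_of_le h0 (le_pr d.hp (X 6) ω0)
  have hH6 : H p (X 6) = Real.log v := by
    rw [Hset d (X 6) {6}, rk3_small L6 (X := {6}) (by simp)]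
    · simp
    · simp
  have hH6' : H p (X 6) = -Real.log c := by
    rw [H_eq]
    have : ∀ ω ∈ (univ : Finset Ω), p ω * (-Real.log (pr p (X 6) (X 6 ω))) =
        p ω * (-Real.log c) := by
      intro ω _
      rcases (d.hp ω).eq_or_lt with h | h
      · rw [← h, zero_mul, zero_mul]
      · rw [hcon ω h]
    rw [Finset.sum_congr rfl this, ← Finset.sum_mul, d.hp1, one_mul]
  have hcv : c * v = 1 := by
    have h1 : Real.log (c * v) = 0 := by
      rw [Real.log_mul hc0.ne' hv0.ne', ← hH6, hH6']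
      ring
    rcases Real.log_eq_zero.1 h1 with h2 | h2 | h2
    · exact absurd h2 (mul_pos hc0 hv0).ne'
    · exact h2
    · have := mul_pos hc0 hv0
      linarith
  let S : Finset ℕ := (univ.image (X 6)).filter fun x => 0 < pr p (X 6) x
  have hS : ∀ x, x ∈ S ↔ ∃ ω, 0 < p ω ∧ X 6 ω = x := by
    intro x
    constructor
    · intro hx
      obtain ⟨ω, h6, h7⟩ := Finset.exists_lt_of_sum_lt (s := univ.filter fun ω => X 6 ω = x)
        (f := fun _ => (0 : ℝ)) (g := p) (by rw [Finset.sum_const_zero]; exact (mem_filter.1 hx).2)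
      exact ⟨ω, h7, (mem_filter.1 h6).2⟩
    · rintro ⟨ω, h1, rfl⟩
      exact mem_filter.2 ⟨mem_image_of_mem _ (mem_univ ω), lt_of_lt_of_le h1 (le_pr d.hp (X 6) ω)⟩
  have hsum : ∑ x ∈ S, pr p (X 6) x = 1 := by
    have e1 : ∑ y ∈ univ.image (X 6), pr p (X 6) y = 1 := by
      unfold pr
      rw [Finset.sum_fiberwise_of_maps_to (fun ω _ => mem_image_of_mem _ (mem_univ ω)), d.hp1]
    rw [← e1]
    refine Finset.sum_subset (filter_subset _ _) fun x hx hxn => ?_
    have : ¬ 0 < pr p (X 6) x := fun h => hxn (mem_filter.2 ⟨hx, h⟩)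
    exact le_antisymm (not_lt.1 this) (pr_nonneg d.hp _ _)
  have hsum2 : ∑ x ∈ S, pr p (X 6) x = #S * c := by
    rw [Finset.sum_congr rfl (g := fun _ => c) (fun x hx => by
      obtain ⟨ω, h1, h2⟩ := (hS x).1 hx
      rw [← h2, hcon ω h1]), Finset.sum_const, nsmul_eq_mul]
  have hcard : #S = v := by
    have : (#S : ℝ) * c = v * c := by rw [← hsum2, hsum, mul_comm, hcv]
    exact_mod_cast mul_right_cancel₀ hc0.ne' this
  rw [← hcard]
  exact Nat.subtype_card S hS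

/-- the p-characteristic set of the non-Fano matroid contains only odd numbers -/
theorem odd_of_mem {v : ℕ} (h : v ∈ pchar F7minus) : Odd v := by
  obtain ⟨hv, Ω, _, p, X, hp, hp1, hH⟩ := h
  have d : Data p X v := ⟨hp, hp1, hH⟩
  have := odd_of_card d (card_vals d hv) (by omega)
  rw [← even_iff_two_dvd] at this
  exact Nat.not_even_iff_odd.1 this

end

end Pool.Agent.U301.CF
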